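import Mathlib

/-!
# MP_9e71ee_nt: definitions (Berkovich projective line, Fatou and Julia sets, tame maps)
-/

open Polynomial Filter Topology
open scoped NNReal ENNReal

namespace MP9e71ee

/-- A point of the Berkovich projective line over `C`: a generalised multiplicative seminorm on
the field `C(X)`, with values in `[0, ∞]`, that extends the absolute value of `C`.
(The points with `|X| < ∞` are the multiplicative seminorms on `C[X]` that extend the absolute
value, the points of the Berkovich affine line: such a seminorm extends uniquely to `C(X)`, by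
`P / Q ↦ |P| / |Q|`, `P` and `Q` coprime. The only further point is the point at infinity,
`g ↦ |g(∞)|`.) -/
structure BerkP1 (C : Type*) [NormedField C] where
  /-- the generalised seminorm -/
  toFun : RatFunc C → ℝ≥0∞
  const' : ∀ a : C, toFun (RatFunc.C a) = ‖a‖ₑ
  add_le' : ∀ g h : RatFunc C, toFun (g + h) ≤ max (toFun g) (toFun h)
  mul' : ∀ g h : RatFunc C, ¬ (toFun g = 0 ∧ toFun h = ⊤) → ¬ (toFun g = ⊤ ∧ toFun h = 0) →
    toFun (g * h) = toFun g * toFun h

variable {C : Type*} [NormedField C]

instance : CoeFun (BerkP1 C) (fun _ => RatFunc C → ℝ≥0∞) := ⟨BerkP1.toFun⟩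

/-- The topology of the Berkovich projective line: pointwise convergence. -/
instance : TopologicalSpace (BerkP1 C) := TopologicalSpace.induced BerkP1.toFun inferInstance

/-- The action on the Berkovich projective line of a nonconstant rational map. The map `f` is given
by its comorphism `φ : C(X) → C(X)`, `g ↦ g ∘ f`; so `f = φ X`, and the nonconstant
rational maps are exactly the `C`-algebra homomorphisms `C(X) → C(X)`. -/
noncomputable def BerkP1.map (φ : RatFunc C →ₐ[C] RatFunc C) (ζ : BerkP1 C) : BerkP1 C where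
  toFun g := ζ (φ g)
  const' a := by
    have h : φ (RatFunc.C a) = RatFunc.C a := φ.commutes a
    rw [h]; exact ζ.const' a
  add_le' g h := by rw [map_add]; exact ζ.add_le' _ _
  mul' g h h1 h2 := by rw [map_mul]; exact ζ.mul' _ _ h1 h2

/-- The degree of a rational function, `max (deg num) (deg denom)`. -/
noncomputable def ratDegree (f : RatFunc C) : ℕ := max f.num.natDegree f.denom.natDegree

/-- The Fatou set: points with a neighbourhood whose forward orbit omits infinitely many points. -/
def Fatou (φ : RatFunc C →ₐ[C] RatFunc C) : Set (BerkP1 C) :=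
  {ζ | ∃ V ∈ 𝓝 ζ, (⋃ n : ℕ, (BerkP1.map φ)^[n] '' V)ᶜ.Infinite}

/-- The Julia set. -/
def Julia (φ : RatFunc C →ₐ[C] RatFunc C) : Set (BerkP1 C) := (Fatou φ)ᶜ

/-- The components of the Fatou set. -/
def IsFatouComponent (φ : RatFunc C →ₐ[C] RatFunc C) (U : Set (BerkP1 C)) : Prop :=
  ∃ ζ ∈ Fatou φ, U = connectedComponentIn (Fatou φ) ζ

/-- `U` is a wandering domain, that is, a Fatou component which is not preperiodic: the Fatou
components `V 0 = U`, `V 1`, `V 2`, … that contain `U` and its images `f(U)`, `f(f(U))`, … are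
pairwise distinct. (Images of Fatou components are Fatou components, so `V n` is the `n`-th image
of `U`.) -/
def IsWandering (φ : RatFunc C →ₐ[C] RatFunc C) (U : Set (BerkP1 C)) : Prop :=
  ∃ V : ℕ → Set (BerkP1 C), V 0 = U ∧ (∀ n, IsFatouComponent φ (V n)) ∧
    (∀ n, Set.MapsTo (BerkP1.map φ) (V n) (V (n + 1))) ∧ ∀ m n, m ≠ n → V m ≠ V n

/-- Type II points: the points of the closed discs `D(a, |r|)`, `r ≠ 0`, that is the sup norms
over these discs. -/
def IsTypeII (ζ : BerkP1 C) : Prop :=
  ∃ a r : C, r ≠ 0 ∧ ∀ H : C[X],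
    ζ (algebraMap C[X] (RatFunc C) H) = ⨆ z : C, ⨆ _ : ‖z - a‖ ≤ ‖r‖, ‖H.eval z‖ₑ

/-- The rational function `P / Q` maps the closed unit disc onto itself and every point of the
closed unit disc has exactly `m` preimages there, counted with multiplicity. -/
def DiscCover (P Q : C[X]) (m : ℕ) : Prop :=
  (∀ x : C, ‖x‖ ≤ 1 → Q.eval x ≠ 0 ∧ ‖P.eval x / Q.eval x‖ ≤ 1) ∧
    ∀ y : C, ‖y‖ ≤ 1 →
      Multiset.card ((P - Polynomial.C y * Q).roots.filter (fun x => ‖x‖ ≤ 1)) = m

/-- Tameness (implied by: the residue characteristic divides no local degree): whenever in some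
coordinates `σ`, `τ` on the source and the target the map sends the closed unit disc
onto itself with `m` preimages of every point, the residue characteristic does not divide `m`, that
is, `|m| = 1`. (The local degree at the point of a closed disc mapped onto a closed disc is this
number of preimages; `σ`, `τ` run over `PGL_2(C)`, the automorphism group of `C(X)`.) -/
def Tame (φ : RatFunc C →ₐ[C] RatFunc C) : Prop :=
  ∀ σ τ : RatFunc C ≃ₐ[C] RatFunc C, ∀ P Q : C[X], IsCoprime P Q →
    σ (φ (τ RatFunc.X)) = algebraMap C[X] (RatFunc C) P / algebraMap C[X] (RatFunc C) Q →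
    ∀ m : ℕ, DiscCover P Q m → ‖(m : C)‖ = 1

/-- Hypothesis (H): `C` contains a discretely valued subfield whose algebraic closure is dense. -/
def HypH (C : Type*) [NormedField C] : Prop :=
  ∃ (K : Subfield C) (c : ℝ), 0 < c ∧ c < 1 ∧ (∀ x ∈ K, x ≠ 0 → ∃ n : ℤ, ‖x‖ = c ^ n) ∧
    Dense {x : C | IsAlgebraic K x}

/-- The domain `U` lies in the attracting basin of a type II periodic point of the Julia set. -/
def InTypeIIBasin (φ : RatFunc C →ₐ[C] RatFunc C) (U : Set (BerkP1 C)) : Prop :=
  ∃ ζ ∈ Julia φ, IsTypeII ζ ∧ ∃ n : ℕ, 0 < n ∧ Function.minimalPeriod (BerkP1.map φ) ζ = n ∧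
    ∃ j : ℕ, ∀ x ∈ U,
      Tendsto (fun k : ℕ => (BerkP1.map φ)^[k * n] x) atTop (𝓝 ((BerkP1.map φ)^[j] ζ))

end MP9e71ee
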