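import Pool.Agent.Work.MP_9e71ee_nt.Bd.B02
import Pool.Agent.Work.MP_9e71ee_nt.Bd.B01

/-!
# Assembly
-/

open Polynomial Filter Topology
open scoped NNReal ENNReal

namespace MP9e71ee

variable {C : Type*} [NontriviallyNormedField C] [IsUltrametricDist C] [IsAlgClosed C]

/-- The theorem in the normalised situation. -/
theorem main_normalised (hH : HypH C) (φ : RatFunc C →ₐ[C] RatFunc C) (V : ℕ → Set (BerkP1 C))
    (hT : Tame φ) (hS : Setup φ V) : InTypeIIBasin φ (V 0) := by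
  classical
  obtain ⟨P, Q, hRM⟩ := exists_RM φ
  have hTM : TameMult P Q := fun x γ hγ hb m hm =>
    claimTAME φ P Q hT hRM.cop hRM.hφ x γ hγ hb m hm
  have hISO : ClaimISO C := claimISO
  obtain ⟨Z, r0, hTD⟩ := (claimTD : ClaimTD C) φ P Q hRM
  obtain ⟨M, c, ρ0, hρ0, hρ01, hctr⟩ := (claimCTR : ClaimCTR C) φ P Q hRM Z r0 hTD.r0_pos
  have hW0 : wr P Q ≠ 0 := (hISO φ P Q hRM hTM).1
  set Cr : Finset C := (wr P Q).roots.toFinset with hCr
  set rs : ℝ≥0 := r0 * ρ0 ^ (M * (mdeg P Q + 1) ^ Cr.card) with hrs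
  have hrspos : 0 < rs := mul_pos hTD.r0_pos (pow_pos hρ0 _)
  have hrs1 : rs ≤ 1 := by
    calc rs ≤ 1 * 1 := mul_le_mul' hTD.r0_lt.le (pow_le_one₀ zero_le hρ01)
      _ = 1 := one_mul _
  have hB : ∀ n (x γ : C), γ ≠ 0 → zpt φ n = dpt x ‖γ‖₊ → rs ≤ ‖γ‖₊ := by
    intro n x γ hγ hz
    rcases Nat.eq_zero_or_pos n with rfl | hn
    · have h0 : (dpt 0 1 : BerkP1 C) = dpt x ‖γ‖₊ := hz
      rw [← (dpt_eq_iff.mp h0).1]
      exact hrs1
    · exact radius_bound hS hRM hTD claimPOT hISO hTM Cr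
        (fun b hb => by rw [hCr, Multiset.mem_toFinset, Polynomial.mem_roots hW0]; exact hb)
        hρ0 hρ01 hctr hn.ne' hγ hz
  obtain ⟨n1, y, ρ, b, c', htail⟩ := exists_tail hH claimAPPROX hISO hTM hS hRM hrspos hrs1 hB
  exact htail.conclusion hS hRM

/-- Every wandering domain of a tame rational map lies in the attracting basin of a type II
periodic point of the Julia set. -/
theorem main (hH : HypH C) (φ : RatFunc C →ₐ[C] RatFunc C) (hT : Tame φ) (U : Set (BerkP1 C))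
    (hU : IsWandering φ U) : InTypeIIBasin φ U :=
  claimSTEP0 (fun ψ z hz => hz.map ψ) (fun φ V hT hS => main_normalised hH φ V hT hS) φ U hT hU

end MP9e71ee
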